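import Mathlib

/-!
# The weighted windows inequality behind the upper bound for `c_ν`
-/

set_option autoImplicit false

namespace Pool.Agent.LibHelper99.Mac

open Finset

/-- The window identity. -/
theorem window_identity (u : ℕ → ℝ) (k : ℕ) :
    ∑ q ∈ range k, ∑ p ∈ range q, (u p - u q - u p * u q) =
      ∑ p ∈ range k, ((k : ℝ) - 1 - 2 * p) * u p -
        ((∑ p ∈ range k, u p) ^ 2 - ∑ p ∈ range k, u p ^ 2) / 2 := by
  induction k with
  | zero => simp
  | succ k ih =>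
    rw [sum_range_succ, ih]
    have h1 : ∑ p ∈ range k, (u p - u k - u p * u k) =
        ∑ p ∈ range k, u p - k * u k - (∑ p ∈ range k, u p) * u k := by
      rw [sum_sub_distrib, sum_sub_distrib, sum_mul]
      simp
    have h2 : ∑ p ∈ range (k + 1), (((k + 1 : ℕ) : ℝ) - 1 - 2 * p) * u p =
        ∑ p ∈ range k, ((k : ℝ) - 1 - 2 * p) * u p + ∑ p ∈ range k, u p - k * u k := by
      rw [sum_range_succ]
      have : ∑ p ∈ range k, (((k + 1 : ℕ) : ℝ) - 1 - 2 * p) * u p =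
          ∑ p ∈ range k, ((k : ℝ) - 1 - 2 * p) * u p + ∑ p ∈ range k, u p := by
        rw [← sum_add_distrib]
        refine sum_congr rfl fun p _ => ?_
        push_cast; ring
      rw [this]
      push_cast; ring
    rw [h1, h2, sum_range_succ, sum_range_succ]
    ring

/-- shifting a truncated sum -/
theorem shift_sum (N k p : ℕ) (hp : p ≤ k) (f : ℕ → ℝ) (s : ℕ → ℝ) (h0 : f 0 = 0)
    (hN : ∀ x, N ≤ x → f x = 0) :
    ∑ x ∈ range N, f x * s (x + p) = ∑ i ∈ range (N + k), f (i - p) * s i := by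
  obtain ⟨r, rfl⟩ := Nat.exists_eq_add_of_le hp
  rw [show N + (p + r) = p + (N + r) by ring, sum_range_add, sum_range_add]
  have h1 : ∑ x ∈ range p, f (x - p) * s x = 0 := by
    refine sum_eq_zero fun x hx => ?_
    rw [Nat.sub_eq_zero_of_le (mem_range.1 hx).le, h0, zero_mul]
  have h2 : ∑ x ∈ range r, f (p + (N + x) - p) * s (p + (N + x)) = 0 := by
    refine sum_eq_zero fun x _ => ?_
    rw [Nat.add_sub_cancel_left, hN _ (Nat.le_add_right _ _), zero_mul]
  rw [h1, h2, zero_add, add_zero]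
  refine sum_congr rfl fun x _ => ?_
  rw [Nat.add_sub_cancel_left, Nat.add_comm]

theorem swap_sum (N k : ℕ) (a : ℕ → ℝ) (f : ℕ → ℝ) (s : ℕ → ℝ) (h0 : f 0 = 0)
    (hN : ∀ x, N ≤ x → f x = 0) :
    ∑ x ∈ range N, f x * ∑ p ∈ range k, a p * s (x + p) =
      ∑ i ∈ range (N + k), (∑ p ∈ range k, a p * f (i - p)) * s i := by
  have h1 : ∑ x ∈ range N, f x * ∑ p ∈ range k, a p * s (x + p) =
      ∑ p ∈ range k, a p * ∑ x ∈ range N, f x * s (x + p) := by
    simp_rw [mul_sum]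
    rw [sum_comm]
    refine sum_congr rfl fun p _ => sum_congr rfl fun x _ => ?_
    ring
  have h2 : ∑ i ∈ range (N + k), (∑ p ∈ range k, a p * f (i - p)) * s i =
      ∑ p ∈ range k, a p * ∑ i ∈ range (N + k), f (i - p) * s i := by
    simp_rw [sum_mul, mul_sum]
    rw [sum_comm]
    refine sum_congr rfl fun p _ => sum_congr rfl fun x _ => ?_
    ring
  rw [h1, h2]
  refine sum_congr rfl fun p hp => ?_
  rw [shift_sum N k p (mem_range.1 hp).le f s h0 hN]

/-- the error kernel -/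
noncomputable def E (k n : ℕ) : ℝ :=
  if n < k then ((n : ℝ) + 1) * n * (k - n - 1) * (k - n) / 6 else 0

theorem E_nonneg (k n : ℕ) : 0 ≤ E k n := by
  unfold E
  split_ifs with h
  · have h1 : (n : ℝ) + 1 ≤ k := by exact_mod_cast h
    have h2 : (0 : ℝ) ≤ n := n.cast_nonneg
    have h3 : (0 : ℝ) ≤ (k : ℝ) - n - 1 := by linarith
    have h4 : (0 : ℝ) ≤ (k : ℝ) - n := by linarith
    positivity
  · exact le_rfl

theorem E_zero (k : ℕ) : E k 0 = 0 := by
  unfold E
  split_ifs <;> simp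

theorem sum_E_formula (k : ℝ) (K : ℕ) :
    ∑ n ∈ range K, ((n : ℝ) + 1) * n * (k - n - 1) * (k - n) / 6 =
      (2 / 15 * K - 1 / 3 * K * k ^ 2 + 1 / 2 * K ^ 2 * k - 1 / 3 * K ^ 3 + 1 / 3 * K ^ 3 * k ^ 2
        - 1 / 2 * K ^ 4 * k + 1 / 5 * K ^ 5) / 6 := by
  induction K with
  | zero => simp
  | succ K ih =>
    rw [sum_range_succ, ih]
    push_cast
    ring

theorem sum_E (k : ℕ) : ∑ n ∈ range k, E k n =
    ((k : ℝ) + 2) * (k + 1) * k * (k - 1) * (k - 2) / 180 := by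
  have : ∑ n ∈ range k, E k n = ∑ n ∈ range k, ((n : ℝ) + 1) * n * (k - n - 1) * (k - n) / 6 :=
    sum_congr rfl fun n hn => by rw [E, if_pos (mem_range.1 hn)]
  rw [this, sum_E_formula]
  ring

theorem sum_E_shift_le (k t M : ℕ) : ∑ i ∈ range M, E k (i - t) ≤ ∑ n ∈ range k, E k n := by
  calc ∑ i ∈ range M, E k (i - t) ≤ ∑ i ∈ range (t + M), E k (i - t) :=
        sum_le_sum_of_subset_of_nonneg (range_mono (Nat.le_add_left _ _))
          (fun _ _ _ => E_nonneg _ _)
    _ = ∑ x ∈ range M, E k x := by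
        rw [sum_range_add]
        have h1 : ∑ x ∈ range t, E k (x - t) = 0 := by
          refine sum_eq_zero fun x hx => ?_
          rw [Nat.sub_eq_zero_of_le (mem_range.1 hx).le, E_zero]
        rw [h1, zero_add]
        exact sum_congr rfl fun x _ => by rw [Nat.add_sub_cancel_left]
    _ ≤ ∑ x ∈ range (M + k), E k x :=
        sum_le_sum_of_subset_of_nonneg (range_mono (Nat.le_add_right _ _))
          (fun _ _ _ => E_nonneg _ _)
    _ = ∑ n ∈ range k, E k n := by
        rw [add_comm M k, sum_range_add]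
        have h1 : ∑ x ∈ range M, E k (k + x) = 0 := by
          refine sum_eq_zero fun x _ => ?_
          rw [E, if_neg (by omega)]
        rw [h1, add_zero]

/-- general partial sums -/
theorem G_formula (k n g : ℝ) (K : ℕ) :
    ∑ p ∈ range K, ((k - 1 - 2 * p) * (n - p) ^ 2 - g * (n - p)) =
      (k - 1) * n ^ 2 * K - 2 * (k - 1) * n * (K * (K - 1) / 2) + (k - 1) * ((K - 1) * K * (2 * K - 1) / 6)
      - 2 * n ^ 2 * (K * (K - 1) / 2) + 4 * n * ((K - 1) * K * (2 * K - 1) / 6)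
      - 2 * (K * (K - 1) / 2) ^ 2 - g * (n * K - K * (K - 1) / 2) := by
  induction K with
  | zero => simp
  | succ K ih =>
    rw [sum_range_succ, ih]
    push_cast
    ring

/-- the truncated quadratic, tested against the window -/
theorem F_eq (k n : ℕ) :
    ∑ p ∈ range k, (((k : ℝ) - 1 - 2 * p) * ((n - p : ℕ) : ℝ) ^ 2 -
      (((k : ℝ) ^ 2 - 1) / 3) * ((n - p : ℕ) : ℝ)) = - E k n := by
  by_cases h : n < k
  · obtain ⟨r, rfl⟩ := Nat.exists_eq_add_of_lt h
    rw [show n + r + 1 = (n + 1) + r by ring, sum_range_add]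
    have h1 : ∑ x ∈ range r, ((((n + 1 + r : ℕ) : ℝ) - 1 - 2 * ((n + 1 + x : ℕ) : ℝ)) *
        ((n - (n + 1 + x) : ℕ) : ℝ) ^ 2 -
        ((((n + 1 + r : ℕ) : ℝ) ^ 2 - 1) / 3) * ((n - (n + 1 + x) : ℕ) : ℝ)) = 0 := by
      refine sum_eq_zero fun x _ => ?_
      rw [show n - (n + 1 + x) = 0 by omega]
      simp
    have h2 : ∑ p ∈ range (n + 1), ((((n + 1 + r : ℕ) : ℝ) - 1 - 2 * (p : ℝ)) *
        ((n - p : ℕ) : ℝ) ^ 2 -
        ((((n + 1 + r : ℕ) : ℝ) ^ 2 - 1) / 3) * ((n - p : ℕ) : ℝ)) =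
        ∑ p ∈ range (n + 1), ((((n + 1 + r : ℕ) : ℝ) - 1 - 2 * (p : ℝ)) *
        ((n : ℝ) - p) ^ 2 -
        ((((n + 1 + r : ℕ) : ℝ) ^ 2 - 1) / 3) * ((n : ℝ) - p)) := by
      refine sum_congr rfl fun p hp => ?_
      rw [Nat.cast_sub (Nat.lt_succ_iff.1 (mem_range.1 hp))]
    rw [h1, h2, G_formula, E, if_pos (by omega)]
    push_cast
    ring
  · push Not at h
    have h2 : ∑ p ∈ range k, (((k : ℝ) - 1 - 2 * p) * ((n - p : ℕ) : ℝ) ^ 2 -
        (((k : ℝ) ^ 2 - 1) / 3) * ((n - p : ℕ) : ℝ)) =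
        ∑ p ∈ range k, (((k : ℝ) - 1 - 2 * p) * ((n : ℝ) - p) ^ 2 -
        (((k : ℝ) ^ 2 - 1) / 3) * ((n : ℝ) - p)) := by
      refine sum_congr rfl fun p hp => ?_
      rw [Nat.cast_sub ((mem_range.1 hp).le.trans h)]
    rw [h2, G_formula, E, if_neg (by omega)]
    ring

/-- the weights of the windows: a quadratic spline with knots `0, m, 3m, 4m` -/
noncomputable def lam (m x : ℕ) : ℝ :=
  (x : ℝ) ^ 2 - 2 * ((x - m : ℕ) : ℝ) ^ 2 + 2 * ((x - 3 * m : ℕ) : ℝ) ^ 2 -
    ((x - 4 * m : ℕ) : ℝ) ^ 2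

/-- half of its derivative -/
noncomputable def tau (m x : ℕ) : ℝ :=
  (x : ℝ) - 2 * ((x - m : ℕ) : ℝ) + 2 * ((x - 3 * m : ℕ) : ℝ) - ((x - 4 * m : ℕ) : ℝ)

/-- the majorant of `tau ^ 2 / lam` -/
noncomputable def bet (m x : ℕ) : ℝ :=
  if x = 0 then 0 else if x < m then 1 else if x < 3 * m then ((m : ℝ) + m - x) ^ 2 / m ^ 2 else 1

theorem lam_zero (m : ℕ) : lam m 0 = 0 := by simp [lam]

theorem tau_zero (m : ℕ) : tau m 0 = 0 := by simp [tau]

theorem lam_large (m x : ℕ) (h : 4 * m ≤ x) : lam m x = 0 := by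
  unfold lam
  rw [Nat.cast_sub (by omega : m ≤ x), Nat.cast_sub (by omega : 3 * m ≤ x), Nat.cast_sub h]
  push_cast
  ring

theorem tau_large (m x : ℕ) (h : 4 * m ≤ x) : tau m x = 0 := by
  unfold tau
  rw [Nat.cast_sub (by omega : m ≤ x), Nat.cast_sub (by omega : 3 * m ≤ x), Nat.cast_sub h]
  push_cast
  ring

theorem lam_tau (m x : ℕ) (hx : x < 4 * m) : 0 ≤ lam m x ∧ 0 ≤ bet m x ∧
    tau m x ^ 2 ≤ bet m x * lam m x := by
  have hm : 0 < m := by omega
  have hm' : (0 : ℝ) < m := by exact_mod_cast hm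
  rcases Nat.lt_or_ge x m with h1 | h1
  · have e1 : lam m x = (x : ℝ) ^ 2 := by
      unfold lam
      rw [show x - m = 0 by omega, show x - 3 * m = 0 by omega, show x - 4 * m = 0 by omega]
      simp
    have e2 : tau m x = (x : ℝ) := by
      unfold tau
      rw [show x - m = 0 by omega, show x - 3 * m = 0 by omega, show x - 4 * m = 0 by omega]
      simp
    rw [e1, e2]
    unfold bet
    split_ifs with h2
    · subst h2; simp
    · refine ⟨by positivity, by norm_num, by rw [one_mul]⟩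
  · rcases Nat.lt_or_ge x (3 * m) with h2 | h2
    · have e1 : lam m x = 2 * (m : ℝ) ^ 2 - ((m : ℝ) + m - x) ^ 2 := by
        unfold lam
        rw [Nat.cast_sub h1, show x - 3 * m = 0 by omega, show x - 4 * m = 0 by omega]
        push_cast
        ring
      have e2 : tau m x = (m : ℝ) + m - x := by
        unfold tau
        rw [Nat.cast_sub h1, show x - 3 * m = 0 by omega, show x - 4 * m = 0 by omega]
        push_cast
        ring
      have e3 : bet m x = ((m : ℝ) + m - x) ^ 2 / m ^ 2 := by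
        unfold bet
        rw [if_neg (by omega), if_neg (by omega), if_pos h2]
      have h3 : (m : ℝ) ≤ x := by exact_mod_cast h1
      have h4 : (x : ℝ) ≤ 3 * m := by exact_mod_cast h2.le
      have h5 : ((m : ℝ) + m - x) ^ 2 ≤ (m : ℝ) ^ 2 := by nlinarith
      rw [e1, e2, e3]
      refine ⟨by nlinarith [sq_nonneg (m : ℝ)], by positivity, ?_⟩
      have h6 : (m : ℝ) ^ 2 ≤ 2 * (m : ℝ) ^ 2 - ((m : ℝ) + m - x) ^ 2 := by linarith
      calc ((m : ℝ) + m - x) ^ 2 = ((m : ℝ) + m - x) ^ 2 / m ^ 2 * (m : ℝ) ^ 2 := by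
            field_simp
        _ ≤ _ := mul_le_mul_of_nonneg_left h6 (by positivity)
    · have e1 : lam m x = (4 * (m : ℝ) - x) ^ 2 := by
        unfold lam
        rw [Nat.cast_sub (by omega : m ≤ x), Nat.cast_sub h2, show x - 4 * m = 0 by omega]
        push_cast
        ring
      have e2 : tau m x = - (4 * (m : ℝ) - x) := by
        unfold tau
        rw [Nat.cast_sub (by omega : m ≤ x), Nat.cast_sub h2, show x - 4 * m = 0 by omega]
        push_cast
        ring
      have e3 : bet m x = 1 := by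
        unfold bet
        rw [if_neg (by omega), if_neg (by omega), if_neg (by omega)]
      rw [e1, e2, e3]
      refine ⟨by positivity, by norm_num, by rw [one_mul, neg_sq]⟩

theorem sum_sq_trunc (M t : ℕ) : ∑ x ∈ range (t + M), ((x - t : ℕ) : ℝ) ^ 2 =
    (M - 1) * M * (2 * M - 1) / 6 := by
  have h0 : ∀ K : ℕ, ∑ x ∈ range K, ((x : ℕ) : ℝ) ^ 2 = ((K : ℝ) - 1) * K * (2 * K - 1) / 6 := by
    intro K
    induction K with
    | zero => simp
    | succ K ih => rw [sum_range_succ, ih]; push_cast; ring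
  rw [sum_range_add]
  have h1 : ∑ x ∈ range t, ((x - t : ℕ) : ℝ) ^ 2 = 0 := by
    refine sum_eq_zero fun x hx => ?_
    rw [Nat.sub_eq_zero_of_le (mem_range.1 hx).le]
    simp
  rw [h1, zero_add, ← h0 M]
  exact sum_congr rfl fun x _ => by rw [Nat.add_sub_cancel_left]

theorem sum_lam (m : ℕ) : ∑ x ∈ range (4 * m), lam m x = 4 * (m : ℝ) ^ 3 := by
  unfold lam
  rw [sum_sub_distrib, sum_add_distrib, sum_sub_distrib, ← mul_sum, ← mul_sum]
  have h0 := sum_sq_trunc (4 * m) 0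
  have h1 := sum_sq_trunc (3 * m) m
  have h2 := sum_sq_trunc m (3 * m)
  have h3 := sum_sq_trunc 0 (4 * m)
  rw [show 0 + 4 * m = 4 * m by ring] at h0
  rw [show m + 3 * m = 4 * m by ring] at h1
  rw [show 3 * m + m = 4 * m by ring] at h2
  rw [show 4 * m + 0 = 4 * m by ring] at h3
  simp only [Nat.sub_zero] at h0
  rw [h0, h1, h2, h3]
  push_cast
  ring

theorem sum_bet (m : ℕ) (hm : 0 < m) :
    ∑ x ∈ range (4 * m), bet m x = (8 * (m : ℝ) - 3 + 1 / m) / 3 := by
  have hm' : (0 : ℝ) < m := by exact_mod_cast hm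
  rw [show 4 * m = m + (2 * m + m) by ring, sum_range_add, sum_range_add]
  have h1 : ∑ x ∈ range m, bet m x = (m : ℝ) - 1 := by
    obtain ⟨r, rfl⟩ := Nat.exists_eq_succ_of_ne_zero hm.ne'
    rw [sum_range_succ']
    have : ∑ x ∈ range r, bet r.succ (x + 1) = ∑ x ∈ range r, (1 : ℝ) := by
      refine sum_congr rfl fun x hx => ?_
      have := mem_range.1 hx
      unfold bet
      rw [if_neg (by omega), if_pos (by omega)]
    rw [this]
    simp [bet]
  have h2 : ∑ x ∈ range (2 * m), bet m (m + x) = (2 * (m : ℝ) + 1 / m) / 3 := by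
    have e : ∑ x ∈ range (2 * m), bet m (m + x) =
        (∑ x ∈ range (2 * m), ((m : ℝ) - x) ^ 2) / m ^ 2 := by
      rw [sum_div]
      refine sum_congr rfl fun x hx => ?_
      have := mem_range.1 hx
      unfold bet
      rw [if_neg (by omega), if_neg (by omega), if_pos (by omega)]
      push_cast
      ring
    have f : ∀ K : ℕ, ∑ x ∈ range K, ((m : ℝ) - x) ^ 2 =
        (m : ℝ) ^ 2 * K - 2 * m * (K * (K - 1) / 2) + (K - 1) * K * (2 * K - 1) / 6 := by
      intro K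
      induction K with
      | zero => simp
      | succ K ih => rw [sum_range_succ, ih]; push_cast; ring
    rw [e, f]
    push_cast
    field_simp
    ring
  have h3 : ∑ x ∈ range m, bet m (m + (2 * m + x)) = (m : ℝ) := by
    have : ∑ x ∈ range m, bet m (m + (2 * m + x)) = ∑ x ∈ range m, (1 : ℝ) := by
      refine sum_congr rfl fun x hx => ?_
      unfold bet
      rw [if_neg (by omega), if_neg (by omega), if_neg (by omega)]
    rw [this]
    simp
  rw [h1, h2, h3]
  ring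

/-- The linear part, in terms of the window sums. -/
theorem linear_part (m k : ℕ) (s : ℕ → ℝ) (hs : ∀ i, |s i| ≤ 1) :
    ∑ x ∈ range (4 * m), (lam m x * ∑ p ∈ range k, ((k : ℝ) - 1 - 2 * p) * s (x + p) -
      (((k : ℝ) ^ 2 - 1) / 3) * tau m x * ∑ p ∈ range k, s (x + p)) ≤
    6 * ∑ n ∈ range k, E k n := by
  set g : ℝ := ((k : ℝ) ^ 2 - 1) / 3 with hg
  have e1 := swap_sum (4 * m) k (fun p => (k : ℝ) - 1 - 2 * p) (lam m) s (lam_zero m)
    (lam_large m)
  have e2 := swap_sum (4 * m) k (fun _ => g) (tau m) s (tau_zero m) (tau_large m)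
  have e3 : ∑ x ∈ range (4 * m), g * tau m x * ∑ p ∈ range k, s (x + p) =
      ∑ x ∈ range (4 * m), tau m x * ∑ p ∈ range k, g * s (x + p) := by
    refine sum_congr rfl fun x _ => ?_
    rw [← mul_sum]; ring
  rw [sum_sub_distrib, e1, e3, e2, ← sum_sub_distrib]
  have e4 : ∀ i : ℕ, (∑ p ∈ range k, ((k : ℝ) - 1 - 2 * p) * lam m (i - p)) * s i -
      (∑ p ∈ range k, g * tau m (i - p)) * s i =
      -(E k i - 2 * E k (i - m) + 2 * E k (i - 3 * m) - E k (i - 4 * m)) * s i := by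
    intro i
    rw [← sub_mul, ← sum_sub_distrib]
    congr 1
    have h0 := F_eq k i
    have h1 := F_eq k (i - m)
    have h2 := F_eq k (i - 3 * m)
    have h3 := F_eq k (i - 4 * m)
    rw [← hg] at h0 h1 h2 h3
    have : ∑ p ∈ range k, (((k : ℝ) - 1 - 2 * p) * lam m (i - p) - g * tau m (i - p)) =
        ∑ p ∈ range k, ((((k : ℝ) - 1 - 2 * p) * ((i - p : ℕ) : ℝ) ^ 2 - g * ((i - p : ℕ) : ℝ))
        - 2 * (((k : ℝ) - 1 - 2 * p) * ((i - m - p : ℕ) : ℝ) ^ 2 - g * ((i - m - p : ℕ) : ℝ))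
        + 2 * (((k : ℝ) - 1 - 2 * p) * ((i - 3 * m - p : ℕ) : ℝ) ^ 2 -
            g * ((i - 3 * m - p : ℕ) : ℝ))
        - (((k : ℝ) - 1 - 2 * p) * ((i - 4 * m - p : ℕ) : ℝ) ^ 2 -
            g * ((i - 4 * m - p : ℕ) : ℝ))) := by
      refine sum_congr rfl fun p _ => ?_
      unfold lam tau
      rw [Nat.sub_right_comm i p m, Nat.sub_right_comm i p (3 * m),
        Nat.sub_right_comm i p (4 * m)]
      ring
    rw [this, sum_sub_distrib, sum_add_distrib, sum_sub_distrib, ← mul_sum, ← mul_sum, h0, h1,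
      h2, h3]
    ring
  rw [sum_congr rfl fun i _ => e4 i]
  have e5 : ∀ i : ℕ, -(E k i - 2 * E k (i - m) + 2 * E k (i - 3 * m) - E k (i - 4 * m)) * s i ≤
      E k (i - 0) + 2 * E k (i - m) + 2 * E k (i - 3 * m) + E k (i - 4 * m) := by
    intro i
    have h0 := E_nonneg k i
    have h1 := E_nonneg k (i - m)
    have h2 := E_nonneg k (i - 3 * m)
    have h3 := E_nonneg k (i - 4 * m)
    obtain ⟨hs1, hs2⟩ := abs_le.1 (hs i)
    rw [Nat.sub_zero]
    nlinarith [mul_nonneg h0 (by linarith : 0 ≤ 1 + s i), mul_nonneg h1 (by linarith : 0 ≤ 1 - s i),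
      mul_nonneg h2 (by linarith : 0 ≤ 1 + s i), mul_nonneg h3 (by linarith : 0 ≤ 1 - s i)]
  calc _ ≤ ∑ i ∈ range (4 * m + k), (E k (i - 0) + 2 * E k (i - m) + 2 * E k (i - 3 * m) +
        E k (i - 4 * m)) := sum_le_sum fun i _ => e5 i
    _ = ∑ i ∈ range (4 * m + k), E k (i - 0) + 2 * ∑ i ∈ range (4 * m + k), E k (i - m) +
        2 * ∑ i ∈ range (4 * m + k), E k (i - 3 * m) + ∑ i ∈ range (4 * m + k), E k (i - 4 * m) := by
        rw [sum_add_distrib, sum_add_distrib, sum_add_distrib, ← mul_sum, ← mul_sum]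
    _ ≤ _ := by
        have h0 := sum_E_shift_le k 0 (4 * m + k)
        have h1 := sum_E_shift_le k m (4 * m + k)
        have h2 := sum_E_shift_le k (3 * m) (4 * m + k)
        have h3 := sum_E_shift_le k (4 * m) (4 * m + k)
        linarith

/-- **Main inequality.** -/
theorem main_ineq (m k : ℕ) (hm : 0 < m) (s : ℕ → ℝ) (hs : ∀ i, s i = 1 ∨ s i = -1) :
    ∑ x ∈ range (4 * m), lam m x *
      ∑ q ∈ range k, ∑ p ∈ range q, (s (x + p) - s (x + q) - s (x + p) * s (x + q)) ≤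
    6 * (((k : ℝ) + 2) * (k + 1) * k * (k - 1) * (k - 2) / 180) +
      (((k : ℝ) ^ 2 - 1) / 3) ^ 2 / 2 * ((8 * (m : ℝ) - 3 + 1 / m) / 3) + k / 2 * (4 * (m : ℝ) ^ 3) := by
  set g : ℝ := ((k : ℝ) ^ 2 - 1) / 3 with hg
  have habs : ∀ i, |s i| ≤ 1 := fun i => by rcases hs i with h | h <;> simp [h]
  have hsq : ∀ i, s i ^ 2 = 1 := fun i => by rcases hs i with h | h <;> simp [h]
  have hlin := linear_part m k s habs
  rw [← hg, sum_E] at hlin
  have hpt : ∀ x ∈ range (4 * m), lam m x *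
      ∑ q ∈ range k, ∑ p ∈ range q, (s (x + p) - s (x + q) - s (x + p) * s (x + q)) ≤
      (lam m x * ∑ p ∈ range k, ((k : ℝ) - 1 - 2 * p) * s (x + p) -
        g * tau m x * ∑ p ∈ range k, s (x + p)) + g ^ 2 / 2 * bet m x + k / 2 * lam m x := by
    intro x hx
    rw [window_identity (fun p => s (x + p)) k]
    have h1 : ∑ p ∈ range k, s (x + p) ^ 2 = k := by
      rw [sum_congr rfl fun p _ => hsq (x + p)]
      simp
    rw [h1]
    set S := ∑ p ∈ range k, s (x + p)
    set L := ∑ p ∈ range k, ((k : ℝ) - 1 - 2 * p) * s (x + p)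
    obtain ⟨hl, hb, htl⟩ := lam_tau m x (mem_range.1 hx)
    have key : g * tau m x * S - lam m x * S ^ 2 / 2 ≤ g ^ 2 / 2 * bet m x := by
      rcases hl.eq_or_lt with h0 | h0
      · rw [← h0] at htl ⊢
        have : tau m x = 0 := by nlinarith [sq_nonneg (tau m x)]
        rw [this]
        have : 0 ≤ g ^ 2 / 2 * bet m x := by positivity
        linarith
      · have h2 : lam m x * (g ^ 2 / 2 * bet m x - (g * tau m x * S - lam m x * S ^ 2 / 2)) =
            (lam m x * S - g * tau m x) ^ 2 / 2 + g ^ 2 / 2 * (bet m x * lam m x - tau m x ^ 2) := by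
          ring
        have h3 : 0 ≤ lam m x * (g ^ 2 / 2 * bet m x - (g * tau m x * S - lam m x * S ^ 2 / 2)) := by
          rw [h2]
          have : 0 ≤ bet m x * lam m x - tau m x ^ 2 := by linarith
          positivity
        have h4 := nonneg_of_mul_nonneg_right h3 h0
        linarith
    nlinarith [key]
  calc _ ≤ ∑ x ∈ range (4 * m), ((lam m x * ∑ p ∈ range k, ((k : ℝ) - 1 - 2 * p) * s (x + p) -
        g * tau m x * ∑ p ∈ range k, s (x + p)) + g ^ 2 / 2 * bet m x + k / 2 * lam m x) :=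
        sum_le_sum hpt
    _ = ∑ x ∈ range (4 * m), (lam m x * ∑ p ∈ range k, ((k : ℝ) - 1 - 2 * p) * s (x + p) -
        g * tau m x * ∑ p ∈ range k, s (x + p)) + g ^ 2 / 2 * ∑ x ∈ range (4 * m), bet m x +
        k / 2 * ∑ x ∈ range (4 * m), lam m x := by
        rw [sum_add_distrib, sum_add_distrib, ← mul_sum, ← mul_sum]
    _ ≤ _ := by
        rw [sum_bet m hm, sum_lam]
        linarith

end Pool.Agent.LibHelper99.Mac
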