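import Pool.Agent.Lib_helper99.Mac.Core

/-!
# Choice of the parameters
-/

set_option autoImplicit false

namespace Pool.Agent.LibHelper99.Mac

/-- the right-hand side of `main_ineq` -/
noncomputable def R (m k : ℕ) : ℝ :=
  6 * (((k : ℝ) + 2) * (k + 1) * k * (k - 1) * (k - 2) / 180) +
      (((k : ℝ) ^ 2 - 1) / 3) ^ 2 / 2 * ((8 * (m : ℝ) - 3 + 1 / m) / 3) + k / 2 * (4 * (m : ℝ) ^ 3)

/-- comparison with `ν ^ (-2/3)` -/
theorem le_rpow {A B ν : ℝ} (hB : 0 ≤ B) (hν : 0 < ν) (h : A ^ 3 * ν ^ 2 ≤ B ^ 3) :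
    A ≤ B * ν ^ (-(2 / 3) : ℝ) := by
  have h1 : (ν ^ (-(2 / 3) : ℝ)) ^ 3 = (ν ^ 2)⁻¹ := by
    rw [← Real.rpow_natCast, ← Real.rpow_mul hν.le]
    norm_num
  have h2 : A ^ 3 ≤ (B * ν ^ (-(2 / 3) : ℝ)) ^ 3 := by
    rw [mul_pow, h1, ← div_eq_mul_inv, le_div_iff₀ (by positivity)]
    exact h
  have h3 : 0 ≤ B * ν ^ (-(2 / 3) : ℝ) := by positivity
  by_contra hcon
  push Not at hcon
  have := pow_lt_pow_left₀ hcon h3 (by norm_num : 3 ≠ 0)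
  linarith

theorem le_of_seg {m k a b : ℕ} (ν : ℕ) (hm : 0 < m) (hk : 2 ≤ k) (ha : 4 * m + k ≤ a + 1)
    (h1 : a ≤ ν) (h2 : ν ≤ b) (hR0 : 0 ≤ R m k)
    (hR : R m k ^ 3 * (b : ℝ) ^ 2 ≤ (8 * (m : ℝ) ^ 3 * k * (k - 1)) ^ 3) :
    ∃ m k : ℕ, 0 < m ∧ 2 ≤ k ∧ 4 * m + k ≤ ν + 1 ∧
      R m k ≤ 8 * (m : ℝ) ^ 3 * k * (k - 1) * (ν : ℝ) ^ (-(2 / 3) : ℝ) := by
  have hk' : (2 : ℝ) ≤ k := by exact_mod_cast hk
  have hν : (0 : ℝ) < ν := by
    have : 0 < ν := by omega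
    exact_mod_cast this
  refine ⟨m, k, hm, hk, by omega, le_rpow ?_ hν ?_⟩
  · have : (0 : ℝ) ≤ (k : ℝ) - 1 := by linarith
    positivity
  · have h3 : (ν : ℝ) ^ 2 ≤ (b : ℝ) ^ 2 := by
      have : (ν : ℝ) ≤ b := by exact_mod_cast h2
      exact pow_le_pow_left₀ hν.le this 2
    calc R m k ^ 3 * (ν : ℝ) ^ 2 ≤ R m k ^ 3 * (b : ℝ) ^ 2 :=
          mul_le_mul_of_nonneg_left h3 (by positivity)
      _ ≤ _ := hR

theorem exists_params_small (ν : ℕ) (h12 : 12 ≤ ν) (h : ν ≤ 519) :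
    ∃ m k : ℕ, 0 < m ∧ 2 ≤ k ∧ 4 * m + k ≤ ν + 1 ∧
      R m k ≤ 8 * (m : ℝ) ^ 3 * k * (k - 1) * (ν : ℝ) ^ (-(2 / 3) : ℝ) := by
  rcases le_or_gt ν 13 with h1 | h1
  · exact le_of_seg (m := 2) (k := 3) (a := 12) (b := 13) ν (by norm_num) (by norm_num) (by norm_num)
      (by omega) h1 (by unfold R; norm_num) (by unfold R; norm_num)
  rcases le_or_gt ν 17 with h2 | h2
  · exact le_of_seg (m := 3) (k := 3) (a := 14) (b := 17) ν (by norm_num) (by norm_num) (by norm_num)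
      (by omega) h2 (by unfold R; norm_num) (by unfold R; norm_num)
  rcases le_or_gt ν 22 with h3 | h3
  · exact le_of_seg (m := 3) (k := 4) (a := 18) (b := 22) ν (by norm_num) (by norm_num) (by norm_num)
      (by omega) h3 (by unfold R; norm_num) (by unfold R; norm_num)
  rcases le_or_gt ν 32 with h4 | h4
  · exact le_of_seg (m := 5) (k := 4) (a := 23) (b := 32) ν (by norm_num) (by norm_num) (by norm_num)
      (by omega) h4 (by unfold R; norm_num) (by unfold R; norm_num)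
  rcases le_or_gt ν 57 with h5 | h5
  · exact le_of_seg (m := 7) (k := 6) (a := 33) (b := 57) ν (by norm_num) (by norm_num) (by norm_num)
      (by omega) h5 (by unfold R; norm_num) (by unfold R; norm_num)
  rcases le_or_gt ν 108 with h6 | h6
  · exact le_of_seg (m := 12) (k := 10) (a := 58) (b := 108) ν (by norm_num) (by norm_num)
      (by norm_num) (by omega) h6 (by unfold R; norm_num) (by unfold R; norm_num)
  rcases le_or_gt ν 229 with h7 | h7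
  · exact le_of_seg (m := 24) (k := 14) (a := 109) (b := 229) ν (by norm_num) (by norm_num)
      (by norm_num) (by omega) h7 (by unfold R; norm_num) (by unfold R; norm_num)
  · exact le_of_seg (m := 52) (k := 23) (a := 230) (b := 519) ν (by norm_num) (by norm_num)
      (by norm_num) (by omega) h (by unfold R; norm_num) (by unfold R; norm_num)

theorem exists_t (ν : ℕ) : ∃ t : ℕ, (2 * t) ^ 3 ≤ ν ∧ ν < (2 * (t + 1)) ^ 3 := by
  induction ν with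
  | zero => exact ⟨0, by norm_num, by norm_num⟩
  | succ n ih =>
    obtain ⟨t, h1, h2⟩ := ih
    rcases Nat.lt_or_ge (n + 1) ((2 * (t + 1)) ^ 3) with h | h
    · exact ⟨t, by omega, h⟩
    · refine ⟨t + 1, h, ?_⟩
      have h3 : n + 1 = (2 * (t + 1)) ^ 3 := by omega
      rw [h3]
      exact Nat.pow_lt_pow_left (by omega) (by norm_num)

theorem exists_params_large (ν : ℕ) (h : 520 ≤ ν) :
    ∃ m k : ℕ, 0 < m ∧ 2 ≤ k ∧ 4 * m + k ≤ ν + 1 ∧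
      R m k ≤ 8 * (m : ℝ) ^ 3 * k * (k - 1) * (ν : ℝ) ^ (-(2 / 3) : ℝ) := by
  obtain ⟨t, h1, h2⟩ := exists_t ν
  have ht : 4 ≤ t := by
    by_contra hcon
    push Not at hcon
    have : (2 * (t + 1)) ^ 3 ≤ (2 * 4) ^ 3 := Nat.pow_le_pow_left (by omega) 3
    omega
  obtain ⟨u, rfl⟩ := Nat.exists_eq_add_of_le ht
  -- `t = 4 + u`, `k = 3 t ^ 2`, `m = t ^ 2 (2 t - 1)`
  set m : ℕ := (4 + u) ^ 2 * (2 * u + 7) with hm
  set k : ℕ := 3 * (4 + u) ^ 2 with hk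
  have hm0 : 0 < m := by positivity
  have hk2 : 2 ≤ k := by
    have : 1 ≤ (4 + u) ^ 2 := Nat.one_le_pow _ _ (by omega)
    omega
  have hν : (0 : ℝ) < ν := by
    have : 0 < ν := by omega
    exact_mod_cast this
  refine ⟨m, k, hm0, hk2, ?_, ?_⟩
  · have e : 4 * m + k ≤ (2 * (4 + u)) ^ 3 + 1 := by
      rw [hm, hk]
      nlinarith [Nat.zero_le u, Nat.zero_le (u ^ 2)]
    omega
  · have hu : (0 : ℝ) ≤ u := u.cast_nonneg
    have hmR : (m : ℝ) = (4 + u) ^ 2 * (2 * u + 7) := by rw [hm]; push_cast; ring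
    have hkR : (k : ℝ) = 3 * (4 + u) ^ 2 := by rw [hk]; push_cast; ring
    have hm1 : (1 : ℝ) / m ≤ 1 := by
      rw [div_le_one (by exact_mod_cast hm0)]
      exact_mod_cast hm0
    have hk1 : (0 : ℝ) ≤ (k : ℝ) - 1 := by
      have : (2 : ℝ) ≤ k := by exact_mod_cast hk2
      linarith
    -- an upper bound for `R`
    have hR1 : R m k ≤ 6 * (((k : ℝ) + 2) * (k + 1) * k * (k - 1) * (k - 2) / 180) +
      (((k : ℝ) ^ 2 - 1) / 3) ^ 2 / 2 * ((8 * (m : ℝ) - 2) / 3) + k / 2 * (4 * (m : ℝ) ^ 3) := by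
      unfold R
      have : (8 * (m : ℝ) - 3 + 1 / m) / 3 ≤ (8 * (m : ℝ) - 2) / 3 := by linarith
      have h3 := mul_le_mul_of_nonneg_left this
        (show 0 ≤ (((k : ℝ) ^ 2 - 1) / 3) ^ 2 / 2 by positivity)
      linarith
    have hR2 : (6 * (((k : ℝ) + 2) * (k + 1) * k * (k - 1) * (k - 2) / 180) +
      (((k : ℝ) ^ 2 - 1) / 3) ^ 2 / 2 * ((8 * (m : ℝ) - 2) / 3) + k / 2 * (4 * (m : ℝ) ^ 3)) *
      (2 * (4 + (u : ℝ) + 1)) ^ 2 ≤ 8 * (m : ℝ) ^ 3 * k * (k - 1) := by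
      rw [hmR, hkR, ← sub_nonneg]
      ring_nf
      positivity
    have hR3 : R m k * (2 * (4 + (u : ℝ) + 1)) ^ 2 ≤ 8 * (m : ℝ) ^ 3 * k * (k - 1) :=
      (mul_le_mul_of_nonneg_right hR1 (by positivity)).trans hR2
    have hB : 0 ≤ 8 * (m : ℝ) ^ 3 * k * (k - 1) := by positivity
    have h4 : ((ν : ℝ)) ≤ (2 * (4 + (u : ℝ) + 1)) ^ 3 := by
      have : ν ≤ (2 * (4 + u + 1)) ^ 3 := h2.le
      exact_mod_cast this
    -- `(2 (t + 1)) ^ (-2) ≤ ν ^ (-2/3)`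
    have h5 : 1 ≤ (2 * (4 + (u : ℝ) + 1)) ^ 2 * (ν : ℝ) ^ (-(2 / 3) : ℝ) := by
      refine le_rpow (by positivity) hν ?_
      calc (1 : ℝ) ^ 3 * (ν : ℝ) ^ 2 ≤ ((2 * (4 + (u : ℝ) + 1)) ^ 3) ^ 2 := by
            rw [one_pow, one_mul]
            exact pow_le_pow_left₀ hν.le h4 2
        _ = ((2 * (4 + (u : ℝ) + 1)) ^ 2) ^ 3 := by ring
    have hpos : (0 : ℝ) < (2 * (4 + (u : ℝ) + 1)) ^ 2 := by positivity
    have h6 : R m k ≤ 8 * (m : ℝ) ^ 3 * k * (k - 1) / (2 * (4 + (u : ℝ) + 1)) ^ 2 := by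
      rw [le_div_iff₀ hpos]; exact hR3
    refine h6.trans ?_
    rw [div_le_iff₀ hpos]
    calc 8 * (m : ℝ) ^ 3 * k * (k - 1) = 8 * (m : ℝ) ^ 3 * k * (k - 1) * 1 := by ring
      _ ≤ 8 * (m : ℝ) ^ 3 * k * (k - 1) * ((2 * (4 + (u : ℝ) + 1)) ^ 2 * (ν : ℝ) ^ (-(2 / 3) : ℝ)) :=
        mul_le_mul_of_nonneg_left h5 hB
      _ = _ := by ring

theorem exists_params (ν : ℕ) (h12 : 12 ≤ ν) :
    ∃ m k : ℕ, 0 < m ∧ 2 ≤ k ∧ 4 * m + k ≤ ν + 1 ∧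
      R m k ≤ 8 * (m : ℝ) ^ 3 * k * (k - 1) * (ν : ℝ) ^ (-(2 / 3) : ℝ) := by
  rcases le_or_gt ν 519 with h | h
  · exact exists_params_small ν h12 h
  · exact exists_params_large ν h

end Pool.Agent.LibHelper99.Mac
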